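import Pool.Agent.Helper99.DF.St

/-!
# Project DF, module AE4: multiplication by an exponential gains, and weakening
-/

set_option autoImplicit false

namespace Pool.Agent.Helper78.DF

open Pool.Agent.Helper99.DF

theorem hAE4 : StAE4 := by
  intro K Z c M c0 f hf
  obtain ⟨p, C, hC⟩ := hf
  have hC' : ∀ t : ℕ, |f t - MvPolynomial.aeval (fun k : Z => Real.exp (-(c k * 2 ^ t))) p| ≤
      |C| * Real.exp (-(M * 2 ^ t)) := fun t =>
    (hC t).trans (mul_le_mul_of_nonneg_right (le_abs_self C) (Real.exp_pos _).le)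
  refine ⟨?_, ?_⟩
  · intro k hk hck
    refine ⟨MvPolynomial.X ⟨k, hk⟩ * p, |C|, ?_⟩
    intro t
    have h2 : (0 : ℝ) ≤ 2 ^ t := by positivity
    rw [map_mul, MvPolynomial.aeval_X]
    have e1 : Real.exp (-(c k * 2 ^ t)) * f t -
        Real.exp (-(c (⟨k, hk⟩ : Z) * 2 ^ t)) *
          MvPolynomial.aeval (fun k : Z => Real.exp (-(c k * 2 ^ t))) p =
        Real.exp (-(c k * 2 ^ t)) *
          (f t - MvPolynomial.aeval (fun k : Z => Real.exp (-(c k * 2 ^ t))) p) := by
      ring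
    rw [e1, abs_mul, abs_of_pos (Real.exp_pos _)]
    have e2 : Real.exp (-(c k * 2 ^ t)) ≤ Real.exp (-(c0 * 2 ^ t)) := by
      apply Real.exp_le_exp.mpr
      have := mul_le_mul_of_nonneg_right hck h2
      linarith
    have e3 : Real.exp (-((M + c0) * 2 ^ t)) = Real.exp (-(c0 * 2 ^ t)) * Real.exp (-(M * 2 ^ t)) := by
      rw [← Real.exp_add]
      congr 1
      ring
    calc Real.exp (-(c k * 2 ^ t)) *
          |f t - MvPolynomial.aeval (fun k : Z => Real.exp (-(c k * 2 ^ t))) p| ≤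
        Real.exp (-(c0 * 2 ^ t)) * (|C| * Real.exp (-(M * 2 ^ t))) :=
          mul_le_mul e2 (hC' t) (abs_nonneg _) (Real.exp_pos _).le
      _ = |C| * Real.exp (-((M + c0) * 2 ^ t)) := by rw [e3]; ring
  · intro M' hM'
    refine ⟨p, |C|, ?_⟩
    intro t
    refine (hC' t).trans (mul_le_mul_of_nonneg_left ?_ (abs_nonneg C))
    apply Real.exp_le_exp.mpr
    have h2 : (0 : ℝ) ≤ 2 ^ t := by positivity
    have := mul_le_mul_of_nonneg_right hM' h2
    linarith

end Pool.Agent.Helper78.DF
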